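import Pool.Agent.H84.ND.Targets4
import Pool.Agent.H13.SL.GNA

/-!
# Divisibility of the determinant of a family of curves at a node (GNN)
-/

set_option autoImplicit false

namespace Pool.Agent.H51.ND

open MvPolynomial SC Pool.Agent.H27.LV Pool.Agent.H84.SM Pool.Agent.H84.ND
open Pool.Agent.H84.SL (pd)
open Pool.Agent.H13.SL (phi pd_mul pd_add pd_C pd_X_pow euler3 det_id chain)

section

variable {k : Type} [Field k]

lemma scale_hom {R : Type} [CommRing R] [Algebra k R] (P : MvPolynomial (Fin 3) k)
    (e : ℕ) (hP : P.IsHomogeneous e) (c : R) (x : Fin 3 → R) :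
    aeval (fun i => c * x i) P = c ^ e * aeval x P := by
  rw [aeval_def, aeval_def, eval₂_eq, eval₂_eq, Finset.mul_sum]
  refine Finset.sum_congr rfl fun m hm => ?_
  have h1 : ∑ i ∈ m.support, m i = e := by
    have h := hP (mem_support_iff.1 hm)
    rw [Finsupp.weight_apply, Finsupp.sum] at h
    simpa using h
  rw [← h1, ← Finset.prod_pow_eq_pow_sum]
  have h2 : ∏ i ∈ m.support, (c * x i) ^ m i = (∏ i ∈ m.support, c ^ m i) *
      ∏ i ∈ m.support, x i ^ m i := by
    rw [← Finset.prod_mul_distrib]
    exact Finset.prod_congr rfl fun i _ => mul_pow _ _ _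
  rw [h2]
  ring

lemma pd_comm (i j : Fin 3) (H : MvPolynomial (Fin 3) k) :
    pderiv i (pderiv j H) = pderiv j (pderiv i H) := by
  have h0 : ∀ a b l : Fin 3, pderiv a (pderiv b (X l : MvPolynomial (Fin 3) k)) = 0 := by
    intro a b l
    by_cases h : l = b
    · subst h
      rw [pderiv_X_self, pderiv_one]
    · rw [pderiv_X_of_ne h, map_zero]
  induction H using MvPolynomial.induction_on with
  | C a => rw [pderiv_C, pderiv_C, map_zero, map_zero]
  | add p q hp hq => rw [map_add, map_add, hp, hq, map_add, map_add]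
  | mul_X p l hp =>
    rw [pderiv_mul, pderiv_mul, map_add, map_add, pderiv_mul, pderiv_mul, pderiv_mul, pderiv_mul,
      h0, h0, hp]
    ring

lemma taylor2 {R : Type} [CommRing R] [Algebra k R] (D : R) (u v : Fin 3 → R)
    (hv : ∀ l, D ∣ v l) (H : MvPolynomial (Fin 3) k) :
    D ^ 2 ∣ aeval (fun i => u i + v i) H - aeval u H - ∑ l, aeval u (pderiv l H) * v l := by
  induction H using MvPolynomial.induction_on with
  | C a => simp
  | add p q hp hq =>
    have e : aeval (fun i => u i + v i) (p + q) - aeval u (p + q) -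
        ∑ l, aeval u (pderiv l (p + q)) * v l =
        (aeval (fun i => u i + v i) p - aeval u p - ∑ l, aeval u (pderiv l p) * v l) +
        (aeval (fun i => u i + v i) q - aeval u q - ∑ l, aeval u (pderiv l q) * v l) := by
      simp only [map_add, add_mul, Finset.sum_add_distrib]
      ring
    rw [e]
    exact dvd_add hp hq
  | mul_X p j hp =>
    have e1 : ∑ l, aeval u (pderiv l (p * X j)) * v l =
        u j * ∑ l, aeval u (pderiv l p) * v l + aeval u p * v j := by
      have : ∀ l, aeval u (pderiv l (p * X j)) * v l =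
          u j * (aeval u (pderiv l p) * v l) + aeval u p * (if l = j then v l else 0) := by
        intro l
        rw [pderiv_mul, map_add, map_mul, map_mul, aeval_X]
        by_cases h : l = j
        · subst h
          rw [pderiv_X_self, map_one, if_pos rfl]
          ring
        · rw [pderiv_X_of_ne (Ne.symm h), map_zero, if_neg h]
          ring
      rw [Finset.sum_congr rfl fun l _ => this l, Finset.sum_add_distrib, ← Finset.mul_sum,
        ← Finset.mul_sum]
      simp
    have hs : D ∣ ∑ l, aeval u (pderiv l p) * v l :=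
      Finset.dvd_sum fun l _ => Dvd.dvd.mul_left (hv l) _
    have e : aeval (fun i => u i + v i) (p * X j) - aeval u (p * X j) -
        ∑ l, aeval u (pderiv l (p * X j)) * v l =
        (u j + v j) * (aeval (fun i => u i + v i) p - aeval u p -
          ∑ l, aeval u (pderiv l p) * v l) + v j * ∑ l, aeval u (pderiv l p) * v l := by
      rw [e1, map_mul, map_mul, aeval_X, aeval_X]
      ring
    rw [e]
    refine dvd_add (Dvd.dvd.mul_left hp _) ?_
    rw [pow_two]
    exact mul_dvd_mul (hv j) hs

lemma X_pow_cancel {M : Type} [Field M] {m a : ℕ} {S : Polynomial M}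
    (h : Polynomial.X ^ m ∣ Polynomial.X ^ a * S) : Polynomial.X ^ (m - a) ∣ S := by
  by_cases hma : m ≤ a
  · rw [Nat.sub_eq_zero_of_le hma, pow_zero]
    exact one_dvd _
  · obtain ⟨b, rfl⟩ := Nat.exists_eq_add_of_le (not_le.1 hma).le
    rw [Nat.add_sub_cancel_left]
    rw [pow_add] at h
    exact (mul_dvd_mul_iff_left (pow_ne_zero a Polynomial.X_ne_zero)).1 h

/-- the linear algebra at the end -/
lemma dt_step {M : Type} [Field M] (g p q w : Fin 3 → Polynomial M) (j : Fin 3) (n m : ℕ)
    (hpj : ¬ Polynomial.X ∣ p j)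
    (e1 : Polynomial.X ^ m ∣ ∑ i, g i * p i) (e2 : Polynomial.X ^ m ∣ ∑ i, g i * q i)
    (e3 : Polynomial.X ^ m ∣ ∑ i, g i * w i)
    (hg : ∀ i, Polynomial.X ^ n ∣ g i) (l0 : Fin 3) (hg0 : ¬ Polynomial.X ^ (n + 1) ∣ g l0)
    (hA : ∀ i, Polynomial.X ^ n ∣ p j * q i - q j * p i)
    (hB : ∀ i, Polynomial.X ^ n ∣ p j * w i - w j * p i) :
    Polynomial.X ^ m ∣ dt p q w := by
  choose g' hg' using hg
  choose A' hA' using hA
  choose B' hB' using hB
  have hX : (Polynomial.X : Polynomial M) ^ n ≠ 0 := pow_ne_zero _ Polynomial.X_ne_zero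
  have hg0' : ¬ Polynomial.X ∣ g' l0 := by
    rintro ⟨t, ht⟩
    apply hg0
    rw [hg' l0, ht, pow_succ]
    exact ⟨t, by ring⟩
  have f1 : Polynomial.X ^ (m - 2 * n) ∣ ∑ i, g' i * p i := by
    have h1 : ∑ i, g i * p i = Polynomial.X ^ n * ∑ i, g' i * p i := by
      rw [Finset.mul_sum]
      exact Finset.sum_congr rfl fun i _ => by rw [hg' i]; ring
    rw [h1] at e1
    exact (pow_dvd_pow _ (by omega)).trans (X_pow_cancel e1)
  have f2 : Polynomial.X ^ (m - 2 * n) ∣ ∑ i, g' i * A' i := by
    have h1 : p j * ∑ i, g i * q i - q j * ∑ i, g i * p i =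
        Polynomial.X ^ (2 * n) * ∑ i, g' i * A' i := by
      rw [Finset.mul_sum, Finset.mul_sum, Finset.mul_sum, ← Finset.sum_sub_distrib]
      refine Finset.sum_congr rfl fun i _ => ?_
      rw [two_mul, pow_add]
      linear_combination g i * hA' i + Polynomial.X ^ n * A' i * hg' i
    exact X_pow_cancel (h1 ▸ dvd_sub (Dvd.dvd.mul_left e2 _) (Dvd.dvd.mul_left e1 _))
  have f3 : Polynomial.X ^ (m - 2 * n) ∣ ∑ i, g' i * B' i := by
    have h1 : p j * ∑ i, g i * w i - w j * ∑ i, g i * p i =
        Polynomial.X ^ (2 * n) * ∑ i, g' i * B' i := by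
      rw [Finset.mul_sum, Finset.mul_sum, Finset.mul_sum, ← Finset.sum_sub_distrib]
      refine Finset.sum_congr rfl fun i _ => ?_
      rw [two_mul, pow_add]
      linear_combination g i * hB' i + Polynomial.X ^ n * B' i * hg' i
    exact X_pow_cancel (h1 ▸ dvd_sub (Dvd.dvd.mul_left e3 _) (Dvd.dvd.mul_left e1 _))
  have f4 : Polynomial.X ^ (m - 2 * n) ∣ dt p A' B' := by
    refine Polynomial.prime_X.pow_dvd_of_dvd_mul_left _ hg0' ?_
    rw [det_id]
    exact dvd_add (dvd_add (f1.mul_right _) (f2.mul_right _)) (f3.mul_right _)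
  have i1 : (1 : Fin 3) + 1 = 2 := rfl
  have i2 : (1 : Fin 3) + 2 = 0 := rfl
  have i3 : (2 : Fin 3) + 1 = 0 := rfl
  have i4 : (2 : Fin 3) + 2 = 1 := rfl
  have f5 : Polynomial.X ^ (2 * n) * dt p A' B' = p j ^ 2 * dt p q w := by
    have h1 : dt p (fun i => p j * q i - q j * p i) (fun i => p j * w i - w j * p i) =
        p j ^ 2 * dt p q w := by
      simp only [dt, dp, cr, Fin.sum_univ_three, zero_add, i1, i2, i3, i4]
      ring
    have h2 : dt p (fun i => p j * q i - q j * p i) (fun i => p j * w i - w j * p i) =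
        Polynomial.X ^ (2 * n) * dt p A' B' := by
      have a1 : (fun i => p j * q i - q j * p i) = fun i => Polynomial.X ^ n * A' i :=
        funext hA'
      have a2 : (fun i => p j * w i - w j * p i) = fun i => Polynomial.X ^ n * B' i :=
        funext hB'
      rw [a1, a2, two_mul, pow_add]
      simp only [dt, dp, cr, Fin.sum_univ_three, zero_add, i1, i2, i3, i4]
      ring
    rw [← h2, h1]
  have f6 : Polynomial.X ^ m ∣ p j ^ 2 * dt p q w := by
    rw [← f5]
    refine (pow_dvd_pow _ (by omega : m ≤ 2 * n + (m - 2 * n))).trans ?_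
    rw [pow_add]
    exact mul_dvd_mul_left _ f4
  refine Polynomial.prime_X.pow_dvd_of_dvd_mul_left _ ?_ f6
  intro h
  exact hpj (Polynomial.prime_X.dvd_of_dvd_pow h)

end

theorem pf_GNN (hSNX : T_SNX) (hNCH : T_NCH) (hSQF : T_SQF) : T_GNN := by
  intro k _ _ _ G d hd hG hnode L M _ _ _ _ _ _ δ P c m hc hP hGP
  rcases Nat.eq_zero_or_pos m with rfl | hm
  · rw [pow_zero]; exact one_dvd _
  obtain ⟨g, hg⟩ : ∃ g : Fin 3 → Polynomial M, ∀ i, g i = phi L M (aeval P (pderiv i G)) :=
    ⟨_, fun _ => rfl⟩
  -- the three products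
  have e1 : Polynomial.X ^ m ∣ ∑ i, g i * (P i).map (algebraMap L M) := by
    have : ∑ i, g i * (P i).map (algebraMap L M) =
        phi L M (∑ i, P i * aeval P (pderiv i G)) := by
      rw [map_sum]
      refine Finset.sum_congr rfl fun i _ => ?_
      rw [map_mul, mul_comm, hg]
      rfl
    rw [this, euler3 hG, hGP, map_mul, map_mul, map_pow]
    have hX : phi L M Polynomial.X = Polynomial.X := by simp [phi]
    rw [hX]
    exact ⟨phi L M (d : Polynomial L) * phi L M (Polynomial.C c), by ring⟩
  have e2 : Polynomial.X ^ m ∣ ∑ i, g i * pd δ (P i) := by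
    have := chain (k := k) (fun A => pd δ A) (pd_add δ) (pd_mul δ)
      (fun a => by rw [pd_C, Derivation.map_algebraMap, Polynomial.C_0]) P G
    simp only [hg]
    rw [← this, hGP, pd_mul, pd_C, pd_X_pow, mul_zero, add_zero]
    simp [phi]
  have e3 : Polynomial.X ^ m ∣
      ∑ i, g i * (Polynomial.X * (Polynomial.derivative (P i)).map (algebraMap L M)) := by
    have := chain (k := k) (L := L) (M := M)
      (fun A => Polynomial.X * (Polynomial.derivative A).map (algebraMap L M))
      (fun A B => by simp only [Polynomial.derivative_add, Polynomial.map_add, mul_add])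
      (fun A B => by
        simp only [Polynomial.derivative_mul, Polynomial.map_add, Polynomial.map_mul, phi,
          Polynomial.coe_mapRingHom]
        ring)
      (fun a => by simp) P G
    simp only [hg]
    rw [← this, hGP]
    obtain ⟨n, rfl⟩ : ∃ n, m = n + 1 := ⟨m - 1, by omega⟩
    rw [Polynomial.derivative_C_mul_X_pow]
    simp only [Polynomial.map_mul, Polynomial.map_C, Polynomial.map_pow, Polynomial.map_X,
      Nat.add_sub_cancel]
    exact ⟨Polynomial.C (algebraMap L M (c * (n + 1 : ℕ))), by ring⟩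
  have hcoeff : ∀ H : MvPolynomial (Fin 3) k,
      (aeval P H).coeff 0 = aeval (fun i => (P i).coeff 0) H := by
    intro H
    induction H using MvPolynomial.induction_on with
    | C a =>
      rw [aeval_C, aeval_C]
      simp [Polynomial.algebraMap_apply]
    | add p q hp hq => rw [map_add, map_add, Polynomial.coeff_add, hp, hq]
    | mul_X p j hp =>
      rw [map_mul, map_mul, Polynomial.mul_coeff_zero, hp, aeval_X, aeval_X]
  by_cases hne : ∃ l, aeval (fun i => (P i).coeff 0) (pderiv l G) ≠ 0
  · obtain ⟨l, hl⟩ := hne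
    have hgl : ¬ Polynomial.X ∣ g l := by
      rw [Polynomial.X_dvd_iff, hg]
      simp only [phi, Polynomial.coe_mapRingHom, Polynomial.coeff_map, hcoeff]
      intro h
      exact hl ((map_eq_zero (algebraMap L M)).mp h)
    refine Polynomial.prime_X.pow_dvd_of_dvd_mul_left m hgl ?_
    rw [det_id]
    exact dvd_add (dvd_add (e1.mul_right _) (e2.mul_right _)) (e3.mul_right _)
  push Not at hne
  have hsq := hSQF k G d hd hG hnode
  obtain ⟨s, c0, hs, hc0, ha⟩ := hSNX k G d hd hG hsq L (fun i => (P i).coeff 0) (by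
    obtain ⟨i0, hi0⟩ := hP
    intro h
    exact hi0 (congrFun h i0)) hne
  obtain ⟨j, hj⟩ := Function.ne_iff.1 hs.1
  have hj : s j ≠ 0 := hj
  obtain ⟨h, r1, r2, hN⟩ := hNCH k G d hd hG s (hnode s hs) j hj
  have hdet := hN.det
  obtain ⟨σ, hσ⟩ : ∃ σ : Fin 3 → Polynomial L, ∀ i, σ i = Polynomial.C (algebraMap k L (s i)) :=
    ⟨_, fun _ => rfl⟩
  have hsj : algebraMap k L (s j) ≠ 0 := by
    rw [Ne, map_eq_zero]
    exact hj
  have hσe : ∀ H : MvPolynomial (Fin 3) k, aeval σ H = Polynomial.C (algebraMap k L (eval s H)) := by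
    intro H
    induction H using MvPolynomial.induction_on with
    | C a => rw [aeval_C, eval_C]; rfl
    | add p q hp hq => rw [map_add, map_add, hp, hq, map_add, Polynomial.C_add]
    | mul_X p l hp => rw [map_mul, map_mul, hp, aeval_X, eval_X, map_mul, Polynomial.C_mul, hσ]
  -- the vector y
  obtain ⟨y, hy⟩ : ∃ y : Fin 3 → Polynomial L, ∀ i, y i = σ j * P i - P j * σ i :=
    ⟨_, fun _ => rfl⟩
  have hy0 : ∀ i, Polynomial.X ∣ y i := by
    intro i
    rw [Polynomial.X_dvd_iff, hy, Polynomial.coeff_sub, hσ, hσ, Polynomial.coeff_C_mul,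
      Polynomial.coeff_mul_C, ha i, ha j]
    ring
  have hyj : y j = 0 := by rw [hy]; ring
  have hyne : ∃ i, y i ≠ 0 := by
    by_contra hcon
    push Not at hcon
    have h1 : aeval (fun i => σ j * P i) G = aeval (fun i => P j * σ i) G := by
      congr 1
      congr 1
      funext i
      have := hcon i
      rw [hy] at this
      linear_combination this
    rw [scale_hom G d hG, scale_hom G d hG, hGP, hσe] at h1
    have h2 : eval s G = 0 := by
      have h3 := euler3 hG s
      have h4 : ∀ i, (aeval s) (pderiv i G) = 0 := fun i => hs.2 i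
      simp only [h4, mul_zero, Finset.sum_const_zero] at h3
      rcases mul_eq_zero.1 h3.symm with h5 | h5
      · exfalso
        have : (d : k) ≠ 0 := by
          rw [Nat.cast_ne_zero]
          omega
        exact this h5
      · exact h5
    rw [h2, map_zero, Polynomial.C_0, mul_zero] at h1
    rcases mul_eq_zero.1 h1 with h5 | h5
    · have := eq_zero_of_pow_eq_zero h5
      rw [hσ, Polynomial.C_eq_zero] at this
      exact hsj this
    · rcases mul_eq_zero.1 h5 with h6 | h6
      · exact hc (Polynomial.C_eq_zero.1 h6)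
      · exact pow_ne_zero _ Polynomial.X_ne_zero h6
  -- the order of y
  obtain ⟨n, hn1, hn2⟩ : ∃ n, (∀ i, Polynomial.X ^ n ∣ y i) ∧
      ∃ i, ¬ Polynomial.X ^ (n + 1) ∣ y i := by
    classical
    have hex : ∃ n, ∃ i, ¬ (Polynomial.X : Polynomial L) ^ (n + 1) ∣ y i := by
      obtain ⟨i, hi⟩ := hyne
      refine ⟨(y i).natDegree, i, fun h => ?_⟩
      have h1 := Polynomial.natDegree_le_of_dvd h hi
      rw [Polynomial.natDegree_X_pow] at h1
      omega
    refine ⟨Nat.find hex, ?_, Nat.find_spec hex⟩
    rcases Nat.eq_zero_or_pos (Nat.find hex) with h0 | h0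
    · rw [h0]
      intro i
      rw [pow_zero]
      exact one_dvd _
    · have h1 := Nat.find_min hex (Nat.sub_lt h0 one_pos)
      push Not at h1
      have e : Nat.find hex - 1 + 1 = Nat.find hex := by omega
      rw [e] at h1
      exact h1
  have hn : 1 ≤ n := by
    by_contra hcon
    have h0 : n = 0 := by omega
    obtain ⟨i, hi⟩ := hn2
    rw [h0, zero_add, pow_one] at hi
    exact hi (hy0 i)
  choose y' hy' using hn1
  have hyj' : y' j = 0 := by
    have := hy' j
    rw [hyj] at this
    rcases mul_eq_zero.1 this.symm with h1 | h1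
    · exact absurd h1 (pow_ne_zero _ Polynomial.X_ne_zero)
    · exact h1
  have hy'0 : ∃ i, (y' i).coeff 0 ≠ 0 := by
    obtain ⟨i, hi⟩ := hn2
    refine ⟨i, fun h0 => hi ?_⟩
    rw [← Polynomial.X_dvd_iff] at h0
    rw [hy' i, pow_succ]
    exact mul_dvd_mul_left _ h0
  -- the gradient
  have htay : ∀ i, ∃ E : Polynomial L, σ j ^ (d - 1) * aeval P (pderiv i G) =
      Polynomial.X ^ n * (P j ^ (d - 1 - 1) * ∑ l, aeval σ (pderiv l (pderiv i G)) * y' l +
        Polynomial.X ^ n * E) := by
    intro i
    have h1 := taylor2 (k := k) ((Polynomial.X : Polynomial L) ^ n) (fun i => P j * σ i) y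
      (fun l => ⟨y' l, hy' l⟩) (pderiv i G)
    obtain ⟨E, hE⟩ := h1
    have h2 : (fun i => P j * σ i + y i) = fun i => σ j * P i := by
      funext l
      rw [hy]
      ring
    rw [h2, scale_hom _ _ hG.pderiv, scale_hom _ _ hG.pderiv, hσe, hs.2 i, map_zero,
      Polynomial.C_0, mul_zero, sub_zero] at hE
    have h3 : ∑ l, aeval (fun i => P j * σ i) (pderiv l (pderiv i G)) * y l =
        Polynomial.X ^ n * (P j ^ (d - 1 - 1) *
          ∑ l, aeval σ (pderiv l (pderiv i G)) * y' l) := by
      rw [Finset.mul_sum, Finset.mul_sum]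
      refine Finset.sum_congr rfl fun l _ => ?_
      rw [scale_hom _ _ hG.pderiv.pderiv, hy' l]
      ring
    rw [h3] at hE
    exact ⟨E, by linear_combination hE⟩
  have hσu : ∀ (a e : ℕ) (A : Polynomial L), Polynomial.X ^ e ∣ σ j ^ a * A →
      Polynomial.X ^ e ∣ A := by
    intro a e A hA
    refine Polynomial.prime_X.pow_dvd_of_dvd_mul_left _ ?_ hA
    intro h1
    have h2 := Polynomial.prime_X.dvd_of_dvd_pow h1
    rw [hσ, Polynomial.X_dvd_iff, Polynomial.coeff_C_zero] at h2
    exact hsj h2
  have hGd : ∀ i, Polynomial.X ^ n ∣ aeval P (pderiv i G) := by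
    intro i
    obtain ⟨E, hE⟩ := htay i
    exact hσu (d - 1) n _ ⟨_, hE⟩
  have hgl0 : ∃ l0, ¬ Polynomial.X ^ (n + 1) ∣ aeval P (pderiv l0 G) := by
    by_contra hcon
    push Not at hcon
    have hz : ∀ i, ∑ l, algebraMap k L (eval s (pderiv l (pderiv i G))) * (y' l).coeff 0 = 0 := by
      intro i
      obtain ⟨E, hE⟩ := htay i
      have h1 : Polynomial.X ^ (n + 1) ∣ σ j ^ (d - 1) * aeval P (pderiv i G) :=
        Dvd.dvd.mul_left (hcon i) _
      rw [hE, pow_succ] at h1
      have h2 := (mul_dvd_mul_iff_left (pow_ne_zero n Polynomial.X_ne_zero)).1 h1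
      have h3 : (Polynomial.X : Polynomial L) ∣ Polynomial.X ^ n * E :=
        Dvd.dvd.mul_right (dvd_pow_self _ (by omega)) _
      have h4 := (dvd_add_left h3).1 h2
      rcases Polynomial.prime_X.dvd_or_dvd h4 with h5 | h5
      · exfalso
        have h6 := Polynomial.prime_X.dvd_of_dvd_pow h5
        rw [Polynomial.X_dvd_iff, ha j] at h6
        rcases mul_eq_zero.1 h6 with h7 | h7
        · exact hc0 h7
        · exact hsj h7
      · rw [Polynomial.X_dvd_iff, Polynomial.finsetSum_coeff] at h5
        rw [← h5]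
        refine Finset.sum_congr rfl fun l _ => ?_
        rw [hσe, Polynomial.coeff_C_mul]
    -- the two equations
    have e12 : j + 1 ≠ j := by fin_cases j <;> decide
    have hsum : ∀ f : Fin 3 → L, ∑ l, f l = f j + f (j + 1) + f (j + 2) := by
      intro f
      rw [Fin.sum_univ_three]
      fin_cases j
      · rfl
      · show f 0 + f 1 + f 2 = f 1 + f 2 + f 0
        ring
      · show f 0 + f 1 + f 2 = f 2 + f 0 + f 1
        ring
    have z1 := hz (j + 1)
    have z2 := hz (j + 2)
    rw [hsum, hyj', Polynomial.coeff_zero, mul_zero, zero_add] at z1 z2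
    rw [pd_comm (j + 2) (j + 1)] at z1
    have hdet' : algebraMap k L (eval s (pderiv (j + 1) (pderiv (j + 1) G))) *
        algebraMap k L (eval s (pderiv (j + 2) (pderiv (j + 2) G))) -
        algebraMap k L (eval s (pderiv (j + 1) (pderiv (j + 2) G))) ^ 2 ≠ 0 := by
      rw [← map_mul, ← map_pow, ← map_sub, Ne, map_eq_zero]
      exact hdet
    have y1 : (y' (j + 1)).coeff 0 = 0 := by
      have h1 : (algebraMap k L (eval s (pderiv (j + 1) (pderiv (j + 1) G))) *
        algebraMap k L (eval s (pderiv (j + 2) (pderiv (j + 2) G))) -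
        algebraMap k L (eval s (pderiv (j + 1) (pderiv (j + 2) G))) ^ 2) *
          (y' (j + 1)).coeff 0 = 0 := by
        linear_combination algebraMap k L (eval s (pderiv (j + 2) (pderiv (j + 2) G))) * z1 -
          algebraMap k L (eval s (pderiv (j + 1) (pderiv (j + 2) G))) * z2
      exact (mul_eq_zero.1 h1).resolve_left hdet'
    have y2 : (y' (j + 2)).coeff 0 = 0 := by
      have h1 : (algebraMap k L (eval s (pderiv (j + 1) (pderiv (j + 1) G))) *
        algebraMap k L (eval s (pderiv (j + 2) (pderiv (j + 2) G))) -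
        algebraMap k L (eval s (pderiv (j + 1) (pderiv (j + 2) G))) ^ 2) *
          (y' (j + 2)).coeff 0 = 0 := by
        linear_combination algebraMap k L (eval s (pderiv (j + 1) (pderiv (j + 1) G))) * z2 -
          algebraMap k L (eval s (pderiv (j + 1) (pderiv (j + 2) G))) * z1
      exact (mul_eq_zero.1 h1).resolve_left hdet'
    obtain ⟨i, hi⟩ := hy'0
    have hall : ∀ i : Fin 3, i = j ∨ i = j + 1 ∨ i = j + 2 := by
      intro i
      fin_cases j <;> fin_cases i <;> decide
    rcases hall i with rfl | rfl | rfl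
    · apply hi
      rw [hyj', Polynomial.coeff_zero]
    · exact hi y1
    · exact hi y2
  obtain ⟨l0, hl0⟩ := hgl0
  have hphid : ∀ (e : ℕ) (A : Polynomial L), (Polynomial.X ^ e ∣ A ↔
      Polynomial.X ^ e ∣ phi L M A) := by
    intro e A
    rw [Polynomial.X_pow_dvd_iff, Polynomial.X_pow_dvd_iff]
    simp only [phi, Polynomial.coe_mapRingHom, Polynomial.coeff_map, map_eq_zero]
  have hpj : ¬ Polynomial.X ∣ (P j).map (algebraMap L M) := by
    rw [Polynomial.X_dvd_iff, Polynomial.coeff_map, map_eq_zero, ha j]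
    exact mul_ne_zero hc0 hsj
  have hσM : ¬ Polynomial.X ∣ phi L M (σ j) := by
    rw [Polynomial.X_dvd_iff]
    simp only [phi, Polynomial.coe_mapRingHom, Polynomial.coeff_map, map_eq_zero]
    rw [hσ, Polynomial.coeff_C_zero]
    exact hsj
  have hδσ : ∀ i, pd δ (σ i) = 0 := by
    intro i
    rw [hσ, pd_C, Derivation.map_algebraMap, Polynomial.C_0]
  have hθσ : ∀ i, Polynomial.derivative (σ i) = 0 := by
    intro i
    rw [hσ, Polynomial.derivative_C]
  refine dt_step g (fun i => (P i).map (algebraMap L M)) (fun i => pd δ (P i))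
    (fun i => Polynomial.X * (Polynomial.derivative (P i)).map (algebraMap L M)) j n m hpj e1 e2 e3
    (fun i => by rw [hg]; exact (hphid n _).1 (hGd i)) l0
    (by rw [hg]; exact fun h1 => hl0 ((hphid (n + 1) _).2 h1)) (fun i => ?_) (fun i => ?_)
  · refine Polynomial.prime_X.pow_dvd_of_dvd_mul_left n hσM ?_
    have h1 : pd δ (y i) = phi L M (σ j) * pd δ (P i) - phi L M (σ i) * pd δ (P j) := by
      have h2 : pd δ (y i + P j * σ i) = pd δ (σ j * P i) := by
        congr 1
        rw [hy]
        ring
      rw [pd_add, pd_mul, pd_mul, hδσ, hδσ] at h2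
      linear_combination h2
    have h2 : phi L M (y i) = phi L M (σ j) * phi L M (P i) - phi L M (P j) * phi L M (σ i) := by
      rw [hy, map_sub, map_mul, map_mul]
    have h3 : Polynomial.X ^ n ∣ pd δ (y i) := by
      rw [hy' i, pd_mul, pd_X_pow, zero_mul, zero_add]
      have hX : phi L M (Polynomial.X ^ n) = Polynomial.X ^ n := by simp [phi]
      rw [hX]
      exact dvd_mul_right _ _
    have h4 : Polynomial.X ^ n ∣ phi L M (y i) := (hphid n _).1 ⟨y' i, hy' i⟩
    have h5 : phi L M (σ j) * ((P j).map (algebraMap L M) * pd δ (P i) -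
        pd δ (P j) * (P i).map (algebraMap L M)) =
        (P j).map (algebraMap L M) * pd δ (y i) - pd δ (P j) * phi L M (y i) := by
      rw [h1, h2]
      change phi L M (σ j) * (phi L M (P j) * pd δ (P i) - pd δ (P j) * phi L M (P i)) =
        phi L M (P j) * (phi L M (σ j) * pd δ (P i) - phi L M (σ i) * pd δ (P j)) - _
      ring
    rw [h5]
    exact dvd_sub (Dvd.dvd.mul_left h3 _) (Dvd.dvd.mul_left h4 _)
  · refine Polynomial.prime_X.pow_dvd_of_dvd_mul_left n hσM ?_
    have h1 : phi L M (Polynomial.derivative (y i)) =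
        phi L M (σ j) * phi L M (Polynomial.derivative (P i)) -
          phi L M (σ i) * phi L M (Polynomial.derivative (P j)) := by
      rw [hy, Polynomial.derivative_sub, Polynomial.derivative_mul, Polynomial.derivative_mul,
        hθσ, hθσ, zero_mul, zero_add, mul_zero, add_zero, map_sub, map_mul, map_mul]
      ring
    have h2 : phi L M (y i) = phi L M (σ j) * phi L M (P i) - phi L M (P j) * phi L M (σ i) := by
      rw [hy, map_sub, map_mul, map_mul]
    have h3 : Polynomial.X ^ n ∣ Polynomial.X * phi L M (Polynomial.derivative (y i)) := by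
      have h6 : Polynomial.X ^ n ∣ Polynomial.X * Polynomial.derivative (y i) := by
        obtain ⟨n', rfl⟩ : ∃ n', n = n' + 1 := ⟨n - 1, by omega⟩
        rw [hy' i, Polynomial.derivative_mul, Polynomial.derivative_X_pow, Nat.add_sub_cancel]
        exact ⟨Polynomial.C ((n' + 1 : ℕ) : L) * y' i + Polynomial.X *
          Polynomial.derivative (y' i), by ring⟩
      have h7 := (hphid n _).1 h6
      rw [map_mul] at h7
      have hX : phi L M Polynomial.X = Polynomial.X := by simp [phi]
      rwa [hX] at h7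
    have h4 : Polynomial.X ^ n ∣ phi L M (y i) := (hphid n _).1 ⟨y' i, hy' i⟩
    have h5 : phi L M (σ j) * ((P j).map (algebraMap L M) *
        (Polynomial.X * (Polynomial.derivative (P i)).map (algebraMap L M)) -
        (Polynomial.X * (Polynomial.derivative (P j)).map (algebraMap L M)) *
          (P i).map (algebraMap L M)) =
        (P j).map (algebraMap L M) * (Polynomial.X * phi L M (Polynomial.derivative (y i))) -
        (Polynomial.X * (Polynomial.derivative (P j)).map (algebraMap L M)) *
          phi L M (y i) := by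
      rw [h1, h2]
      change phi L M (σ j) * (phi L M (P j) * (Polynomial.X * phi L M (Polynomial.derivative (P i)))
        - (Polynomial.X * phi L M (Polynomial.derivative (P j))) * phi L M (P i)) =
        phi L M (P j) * (Polynomial.X * (phi L M (σ j) * phi L M (Polynomial.derivative (P i)) -
          phi L M (σ i) * phi L M (Polynomial.derivative (P j)))) -
        (Polynomial.X * phi L M (Polynomial.derivative (P j))) * _
      ring
    rw [h5]
    exact dvd_sub (Dvd.dvd.mul_left h3 _) (Dvd.dvd.mul_left h4 _)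

end Pool.Agent.H51.ND
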