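import Pool.Agent.H51.ND.IPR

/-!
# Forms of degree `D` modulo the power `m` of the ideal of a point (IDM)
-/

set_option autoImplicit false

namespace Pool.Agent.H51.ND

open MvPolynomial SC Pool.Agent.H27.LV Pool.Agent.H84.SM Pool.Agent.H84.ND Pool.Agent.H92.ND

variable {k : Type} [Field k]

/-- linear forms vanishing at the point -/
noncomputable def lf (s : Fin 3 → k) (m0 i : Fin 3) : A3 k := C (s m0) * X i - C (s i) * X m0

/-- forms -/
noncomputable def ef (s : Fin 3 → k) (m0 : Fin 3) (D t a : ℕ) : A3 k :=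
  X m0 ^ (D - t) * lf s m0 (m0 + 1) ^ a * lf s m0 (m0 + 2) ^ (t - a)

lemma Th_ef (s : Fin 3 → k) {m0 : Fin 3} (hm : s m0 ≠ 0) (D t a : ℕ) (ha : a ≤ t) :
    Th s m0 (ef s m0 D t a) = Polynomial.C (ef s m0 D t a) * Polynomial.X ^ t := by
  have h0 : Th s m0 (X m0) = Polynomial.C (X m0) := by
    rw [Th_X, div_self hm, C_1, one_mul, sub_self, Polynomial.C_0, mul_zero, add_zero]
  have h1 : ∀ i, Th s m0 (lf s m0 i) = Polynomial.X * Polynomial.C (lf s m0 i) := fun i => by
    unfold lf
    exact Th_gen m0 i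
  obtain ⟨b, rfl⟩ := Nat.exists_eq_add_of_le ha
  unfold ef
  rw [map_mul, map_mul, map_pow, map_pow, map_pow, h0, h1, h1, Nat.add_sub_cancel_left]
  simp only [Polynomial.C_mul, Polynomial.C_pow]
  ring

/-- the substitution straightening the point -/
noncomputable def ta (s : Fin 3 → k) (m0 : Fin 3) : A3 k →ₐ[k] A3 k :=
  aeval (fun i => if i = m0 then X m0 else C (s m0)⁻¹ * (X i + C (s i) * X m0))

lemma ta_lf (s : Fin 3 → k) {m0 i : Fin 3} (hm : s m0 ≠ 0) (hi : i ≠ m0) :
    ta s m0 (lf s m0 i) = X i := by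
  unfold ta lf
  rw [map_sub, map_mul, map_mul, aeval_X, aeval_X, if_neg hi, if_pos rfl, aeval_C, aeval_C]
  have h1 : (algebraMap k (A3 k)) (s m0) * C (s m0)⁻¹ = 1 := by
    rw [MvPolynomial.algebraMap_eq, ← C_mul, mul_inv_cancel₀ hm, C_1]
  have h2 : (algebraMap k (A3 k)) (s i) = C (s i) := rfl
  rw [h2]
  linear_combination (X i + C (s i) * X m0) * h1

lemma ta_ef (s : Fin 3 → k) {m0 : Fin 3} (hm : s m0 ≠ 0) (D t a : ℕ) :
    ta s m0 (ef s m0 D t a) = monomial (Finsupp.single m0 (D - t) + Finsupp.single (m0 + 1) a +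
      Finsupp.single (m0 + 2) (t - a)) 1 := by
  have e1 : m0 + 1 ≠ m0 := by fin_cases m0 <;> decide
  have e2 : m0 + 2 ≠ m0 := by fin_cases m0 <;> decide
  have h0 : ta s m0 (X m0) = X m0 := by
    unfold ta
    rw [aeval_X, if_pos rfl]
  unfold ef
  rw [map_mul, map_mul, map_pow, map_pow, map_pow, h0, ta_lf s hm e1, ta_lf s hm e2,
    X_pow_eq_monomial, X_pow_eq_monomial, X_pow_eq_monomial, monomial_mul, monomial_mul]
  norm_num

lemma sum_choose (m : ℕ) : ∑ t ∈ Finset.range m, (t + 1) = (m + 1).choose 2 := by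
  induction m with
  | zero => rfl
  | succ m ih =>
    rw [Finset.sum_range_succ, ih, Nat.choose_succ_succ (m + 1) 1, Nat.choose_one_right]
    exact add_comm _ _

theorem pf_IDM : Pool.Agent.H92.ND.T_IDM := by
  intro k _ s hs m D hmD
  obtain ⟨m0, hm0⟩ := Function.ne_iff.1 hs
  have hm : s m0 ≠ 0 := hm0
  have e1 : m0 + 1 ≠ m0 := by fin_cases m0 <;> decide
  have e2 : m0 + 2 ≠ m0 := by fin_cases m0 <;> decide
  have e3 : m0 + 2 ≠ m0 + 1 := by fin_cases m0 <;> decide
  obtain ⟨e, he⟩ : ∃ e : (Σ t : Fin m, Fin (t.val + 1)) → A3 k,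
      ∀ i, e i = ef s m0 D i.1.val i.2.val := ⟨_, fun _ => rfl⟩
  have hli : LinearIndependent k e := by
    apply LinearIndependent.of_comp (ta s m0).toLinearMap
    obtain ⟨α, hα⟩ : ∃ α : (Σ t : Fin m, Fin (t.val + 1)) → (Fin 3 →₀ ℕ),
        ∀ i, α i = Finsupp.single m0 (D - i.1.val) + Finsupp.single (m0 + 1) i.2.val +
          Finsupp.single (m0 + 2) (i.1.val - i.2.val) := ⟨_, fun _ => rfl⟩
    have hinj : Function.Injective α := by
      rintro ⟨t, a⟩ ⟨t', a'⟩ h
      rw [hα, hα] at h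
      have h1 := DFunLike.congr_fun h m0
      have h2 := DFunLike.congr_fun h (m0 + 1)
      simp only [Finsupp.add_apply, Finsupp.single_eq_same, Finsupp.single_eq_of_ne e1.symm,
        Finsupp.single_eq_of_ne e2.symm, Finsupp.single_eq_of_ne e1,
        Finsupp.single_eq_of_ne e3.symm, add_zero, zero_add] at h1 h2
      have ht : t = t' := by
        apply Fin.ext
        have := t.isLt
        have := t'.isLt
        omega
      subst ht
      have ha : a = a' := Fin.ext h2
      rw [ha]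
    have h1 := (MvPolynomial.basisMonomials (Fin 3) k).linearIndependent.comp α hinj
    rw [coe_basisMonomials] at h1
    have h2 : (⇑(ta s m0).toLinearMap ∘ e) = (fun s => monomial s (1 : k)) ∘ α := by
      funext i
      rw [Function.comp_apply, Function.comp_apply, hα, he]
      exact ta_ef s hm D _ _
    rw [h2]
    exact h1
  refine ⟨Submodule.span k (Set.range e), ?_, ?_, ?_, ?_⟩
  · rw [Submodule.span_le]
    rintro _ ⟨i, rfl⟩
    rw [SetLike.mem_coe, mem_homogeneousSubmodule, he]
    have hl : ∀ j, (lf s m0 j).IsHomogeneous 1 := by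
      intro j
      unfold lf
      have h1 := (isHomogeneous_C (Fin 3) (s m0)).mul (isHomogeneous_X k j)
      have h2 := (isHomogeneous_C (Fin 3) (s j)).mul (isHomogeneous_X k m0)
      rw [zero_add] at h1 h2
      exact h1.sub h2
    have h3 := (((isHomogeneous_X k m0).pow (D - i.1.val)).mul
      ((hl (m0 + 1)).pow i.2.val)).mul ((hl (m0 + 2)).pow (i.1.val - i.2.val))
    have h4 : 1 * (D - i.1.val) + 1 * i.2.val + 1 * (i.1.val - i.2.val) = D := by
      have := i.1.isLt
      have := i.2.isLt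
      omega
    rw [h4] at h3
    exact h3
  · exact Module.Finite.span_of_finite k (Set.finite_range e)
  · rw [finrank_span_eq_card hli, Fintype.card_sigma]
    simp only [Fintype.card_fin]
    rw [Fin.sum_univ_eq_sum_range (fun t => t + 1) m, sum_choose]
  · intro f hf hfI
    rw [Submodule.mem_span_range_iff_exists_fun] at hf
    obtain ⟨c, rfl⟩ := hf
    have h1 := Th_dvd (m0 := m0) hfI
    rw [Polynomial.X_pow_dvd_iff] at h1
    have h2 : Th s m0 (∑ i, c i • e i) =
        ∑ i, Polynomial.C (c i • e i) * Polynomial.X ^ (i.1.val) := by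
      rw [map_sum]
      refine Finset.sum_congr rfl fun i _ => ?_
      rw [map_smul, he, Th_ef s hm D _ _ (Nat.lt_succ_iff.1 i.2.isLt), ← smul_mul_assoc,
        Polynomial.smul_C]
    have h3 : Th s m0 (∑ i, c i • e i) = 0 := by
      ext1 n
      by_cases hn : n < m
      · rw [h1 n hn, Polynomial.coeff_zero]
      · rw [h2, Polynomial.finset_sum_coeff, Polynomial.coeff_zero]
        refine Finset.sum_eq_zero fun i _ => ?_
        rw [Polynomial.coeff_C_mul_X_pow, if_neg]
        have := i.1.isLt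
        omega
    rw [← Th_ev s m0 (∑ i, c i • e i), h3, Polynomial.eval_zero]

end Pool.Agent.H51.ND
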