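import Pool.Agent.H92.ND.TargetsB

/-!
# The powers of the ideal of a point are primary (IPR)
-/

set_option autoImplicit false

namespace Pool.Agent.H51.ND

open MvPolynomial SC Pool.Agent.H27.LV Pool.Agent.H84.SM Pool.Agent.H84.ND Pool.Agent.H92.ND

variable {k : Type} [Field k]

/-- scaling towards the point -/
noncomputable def Th (s : Fin 3 → k) (m0 : Fin 3) : A3 k →ₐ[k] Polynomial (A3 k) :=
  aeval (fun i => Polynomial.C (C (s i / s m0) * X m0) +
    Polynomial.X * Polynomial.C (X i - C (s i / s m0) * X m0))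

lemma Th_X (s : Fin 3 → k) (m0 i : Fin 3) : Th s m0 (X i) =
    Polynomial.C (C (s i / s m0) * X m0) +
      Polynomial.X * Polynomial.C (X i - C (s i / s m0) * X m0) := aeval_X _ i

lemma Th_C (s : Fin 3 → k) (m0 : Fin 3) (a : k) : Th s m0 (C a) = Polynomial.C (C a) := by
  unfold Th
  rw [aeval_C]
  rfl

lemma Th_gen {s : Fin 3 → k} {m0 : Fin 3} (i j : Fin 3) :
    Th s m0 (C (s i) * X j - C (s j) * X i) =
      Polynomial.X * Polynomial.C (C (s i) * X j - C (s j) * X i) := by
  have h1 : (C (s i) * C (s j / s m0) : A3 k) = C (s j) * C (s i / s m0) := by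
    rw [← C_mul, ← C_mul]
    congr 1
    ring
  have h2 := congrArg (fun t => Polynomial.C t) h1
  simp only [Polynomial.C_mul] at h2
  rw [map_sub, map_mul, map_mul, Th_C, Th_C, Th_X, Th_X]
  simp only [Polynomial.C_mul, Polynomial.C_sub]
  linear_combination (Polynomial.C (X m0) - Polynomial.X * Polynomial.C (X m0)) * h2

lemma Th_dvd {s : Fin 3 → k} {m0 : Fin 3} {m : ℕ} {φ : A3 k} (h : φ ∈ Is s ^ m) :
    (Polynomial.X : Polynomial (A3 k)) ^ m ∣ Th s m0 φ := by
  have h1 : Ideal.map (Th s m0) (Is s) ≤ Ideal.span {(Polynomial.X : Polynomial (A3 k))} := by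
    unfold Is
    rw [Ideal.map_span, Ideal.span_le]
    rintro _ ⟨_, ⟨i, j, rfl⟩, rfl⟩
    rw [Th_gen]
    exact Ideal.mem_span_singleton.2 (dvd_mul_right _ _)
  have h2 : Th s m0 φ ∈ Ideal.map (Th s m0) (Is s) ^ m := by
    rw [← Ideal.map_pow]
    exact Ideal.mem_map_of_mem _ h
  have h3 := Ideal.pow_right_mono h1 m h2
  rw [Ideal.span_singleton_pow, Ideal.mem_span_singleton] at h3
  exact h3

lemma Th_coeff {s : Fin 3 → k} {m0 : Fin 3} (hm : s m0 ≠ 0) (φ : A3 k) :
    ∀ b, (Th s m0 φ).coeff b ∈ Is s ^ b := by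
  induction φ using MvPolynomial.induction_on with
  | C a =>
    intro b
    rw [Th_C, Polynomial.coeff_C]
    split_ifs with h
    · rw [h, pow_zero, Ideal.one_eq_top]
      exact Submodule.mem_top
    · exact zero_mem _
  | add p q hp hq =>
    intro b
    rw [map_add, Polynomial.coeff_add]
    exact add_mem (hp b) (hq b)
  | mul_X p i hp =>
    intro b
    have h1 : (X i - C (s i / s m0) * X m0 : A3 k) ∈ Is s := by
      have h2 : (X i - C (s i / s m0) * X m0 : A3 k) =
          C (s m0)⁻¹ * (C (s m0) * X i - C (s i) * X m0) := by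
        rw [mul_sub, ← mul_assoc, ← mul_assoc, ← C_mul, ← C_mul, inv_mul_cancel₀ hm, C_1, one_mul]
        congr 3
        ring
      rw [h2]
      exact Ideal.mul_mem_left _ _ (Ideal.subset_span ⟨m0, i, rfl⟩)
    have e : Th s m0 (p * X i) = Th s m0 p * Polynomial.C (C (s i / s m0) * X m0) +
        Th s m0 p * Polynomial.C (X i - C (s i / s m0) * X m0) * Polynomial.X := by
      rw [map_mul, Th_X]
      ring
    rw [e, Polynomial.coeff_add, Polynomial.coeff_mul_C]
    refine add_mem (Ideal.mul_mem_right _ _ (hp b)) ?_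
    cases b with
    | zero =>
      rw [Polynomial.coeff_mul_X_zero]
      exact zero_mem _
    | succ b =>
      rw [Polynomial.coeff_mul_X, Polynomial.coeff_mul_C, pow_succ]
      exact Ideal.mul_mem_mul (hp b) h1

lemma Th_ev (s : Fin 3 → k) (m0 : Fin 3) (φ : A3 k) : Polynomial.eval 1 (Th s m0 φ) = φ := by
  induction φ using MvPolynomial.induction_on with
  | C a => rw [Th_C, Polynomial.eval_C]
  | add p q hp hq => rw [map_add, Polynomial.eval_add, hp, hq]
  | mul_X p i hp =>
    rw [map_mul, Polynomial.eval_mul, hp, Th_X, Polynomial.eval_add, Polynomial.eval_mul,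
      Polynomial.eval_C, Polynomial.eval_X, Polynomial.eval_C]
    ring

lemma mem_of_Th {s : Fin 3 → k} {m0 : Fin 3} (hm : s m0 ≠ 0) {m : ℕ} {φ : A3 k}
    (h : (Polynomial.X : Polynomial (A3 k)) ^ m ∣ Th s m0 φ) : φ ∈ Is s ^ m := by
  rw [Polynomial.X_pow_dvd_iff] at h
  rw [← Th_ev s m0 φ, Polynomial.eval_eq_sum, Polynomial.sum_def]
  refine sum_mem fun b _ => Ideal.mul_mem_right _ _ ?_
  by_cases hb : b < m
  · rw [h b hb]
    exact zero_mem _
  · exact Ideal.pow_le_pow_right (not_lt.1 hb) (Th_coeff hm φ b)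

lemma Th_not_dvd {s : Fin 3 → k} {m0 : Fin 3} (hm : s m0 ≠ 0) {u : A3 k} (hu : eval s u ≠ 0) :
    ¬ (Polynomial.X : Polynomial (A3 k)) ∣ Th s m0 u := by
  rw [Polynomial.X_dvd_iff, Polynomial.coeff_zero_eq_eval_zero]
  intro h
  apply hu
  have key : ∀ φ : A3 k, eval s (Polynomial.eval 0 (Th s m0 φ)) = eval s φ := by
    intro φ
    induction φ using MvPolynomial.induction_on with
    | C a => rw [Th_C, Polynomial.eval_C]
    | add p q hp hq => rw [map_add, Polynomial.eval_add, map_add, hp, hq, map_add]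
    | mul_X p i hp =>
      rw [map_mul, Polynomial.eval_mul, map_mul, hp, Th_X, Polynomial.eval_add,
        Polynomial.eval_mul, Polynomial.eval_C, Polynomial.eval_X, zero_mul, add_zero, map_mul,
        map_mul, eval_C, eval_X, eval_X, div_mul_cancel₀ _ hm]
  rw [← key, h, map_zero]

theorem pf_IPR : Pool.Agent.H92.ND.T_IPR := by
  intro k _ s hs m u φ hu h
  obtain ⟨m0, hm0⟩ := Function.ne_iff.1 hs
  have hm : s m0 ≠ 0 := hm0
  refine mem_of_Th hm ?_
  have h1 := Th_dvd (m0 := m0) h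
  rw [map_mul] at h1
  exact Polynomial.prime_X.pow_dvd_of_dvd_mul_left m (Th_not_dvd hm hu) h1

end Pool.Agent.H51.ND
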