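import Pool.Agent.H92.ND.TargetsB
import Pool.Agent.H84.ND.Targets1

/-!
# Lower bound for the space of sections of degree 0 in `w` (LBA)
-/

set_option autoImplicit false

namespace Pool.Agent.H51.ND

open MvPolynomial SC Pool.Agent.H27.LV Pool.Agent.H84.SM Pool.Agent.H84.ND Pool.Agent.H92.ND

lemma sum_choose2 (i : ℕ) : ∑ j ∈ Finset.range i, (j + 2).choose 2 = (i + 2).choose 3 := by
  induction i with
  | zero => rfl
  | succ i ih =>
    rw [Finset.sum_range_succ, ih, Nat.choose_succ_succ (i + 2) 2]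
    exact add_comm _ _

lemma sum_sub {k : Type} [AddCommMonoid k] {α : Type} [DecidableEq α] (T : Finset α) (i : ℕ)
    (F : α → ℕ → k) : ∑ a : (↥T × Fin i), F a.1.1 a.2.val =
      ∑ s ∈ T, ∑ j ∈ Finset.range i, F s j := by
  rw [Fintype.sum_prod_type]
  rw [← Finset.sum_coe_sort T (fun s => ∑ j ∈ Finset.range i, F s j)]
  refine Finset.sum_congr rfl fun s _ => ?_
  exact Fin.sum_univ_eq_sum_range (fun j => F s.1 j) i

lemma BH_add {k : Type} [Field k] {e i : ℕ} {b c : A2 k} (hb : BH e i b) (hc : BH e i c) :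
    BH e i (b + c) := ⟨hb.1.add hc.1, hb.2.add hc.2⟩

lemma BH_zero {k : Type} [Field k] (e i : ℕ) : BH e i (0 : A2 k) :=
  ⟨isWeightedHomogeneous_zero k _ _, isWeightedHomogeneous_zero k _ _⟩

lemma BH_smul {k : Type} [Field k] {e i : ℕ} {b : A2 k} (hb : BH e i b) (a : k) :
    BH e i (a • b) := by
  refine ⟨?_, ?_⟩
  · exact (weightedHomogeneousSubmodule k wx e).smul_mem a hb.1
  · exact (weightedHomogeneousSubmodule k wy i).smul_mem a hb.2

theorem pf_LBA (hBDN : Pool.Agent.H92.ND.T_BDN) (hNVM : Pool.Agent.H92.ND.T_NVM)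
    (hSNV : Pool.Agent.H92.ND.T_SNV) (hSEE : Pool.Agent.H92.ND.T_SEE)
    (hHDE : Pool.Agent.H92.ND.T_HDE) (hHVN : Pool.Agent.H92.ND.T_HVN)
    (hIDM : Pool.Agent.H92.ND.T_IDM) (hLIA : Pool.Agent.H92.ND.T_LIA)
    (hIDP : Pool.Agent.H92.ND.T_IDP) (hSME : Pool.Agent.H84.ND.T_SME) :
    Pool.Agent.H92.ND.T_LBA := by
  classical
  intro k _ _ _ G d hd hG hsq hnode T hT hcr i
  have hd1 : 1 ≤ d := by omega
  have hG0 : G ≠ 0 := hsq.ne_zero
  have hgA : gA G ≠ 0 := by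
    have h1 : gA G = rename Sum.inl G := by
      unfold gA
      rw [rename_eq_aeval]
      rfl
    rw [h1, Ne, map_eq_zero_iff _ (rename_injective _ Sum.inl_injective)]
    exact hG0
  have hgF : gF G ≠ 0 := by
    unfold gF
    rw [Ne, map_eq_zero_iff _ (IsFractionRing.injective (A2 k) (F2 k))]
    exact hgA
  -- the data
  have hdat : ∀ s ∈ T, ∃ (l : Fin 3) (ρ η : ℕ) (R : Fin 3 → A3 k) (D h : A3 k),
      s l ≠ 0 ∧ HD G s ρ R D ∧ h.IsHomogeneous η ∧ eval s h ≠ 0 ∧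
      ∀ s' ∈ T, s' ≠ s → eval s' h = 0 := by
    intro s hs
    obtain ⟨l, hl⟩ := Function.ne_iff.1 (hT s hs).1
    obtain ⟨ρ, R, D, h1⟩ := hHDE k G d hd1 hG s (hnode s (hT s hs))
    obtain ⟨η, h, h2, h3, h4⟩ := hHVN k T hcr s hs
    exact ⟨l, ρ, η, R, D, h, hl, h1, h2, h3, h4⟩
  choose! l ρ η R D h hl hHD hh1 hh2 hh3 using hdat
  obtain ⟨K, hK⟩ : ∃ K : ℕ, K = ∑ s ∈ T, (η s + ρ s + 3) := ⟨_, rfl⟩
  refine ⟨2 * (i : ℤ) + i * K, fun t ht => ?_⟩
  have hti : 0 ≤ t - i := by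
    have : (0 : ℤ) ≤ i * K := by positivity
    linarith
  obtain ⟨e0, he0⟩ := Int.eq_ofNat_of_zero_le hti
  -- the degrees
  have hr : ∀ s ∈ T, ∀ j : ℕ, j < i → ∃ r : ℕ, (r : ℤ) +
      ((j + 1 : ℕ) : ℤ) * ((η s : ℤ) + ρ s + 3 - d) + ((i : ℤ) - ((j + 1 : ℕ) : ℤ)) = t ∧
      j + 1 ≤ r := by
    intro s hs j hj
    have h1 : η s + ρ s + 3 ≤ K := by
      rw [hK]
      exact Finset.single_le_sum (f := fun s => η s + ρ s + 3) (fun _ _ => Nat.zero_le _) hs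
    have h2 : (η s : ℤ) + ρ s + 3 ≤ K := by exact_mod_cast h1
    have h3 : ((j + 1 : ℕ) : ℤ) ≤ i := by exact_mod_cast hj
    have h4 : (0 : ℤ) ≤ ((j + 1 : ℕ) : ℤ) := by positivity
    have h5 : ((j + 1 : ℕ) : ℤ) * ((η s : ℤ) + ρ s + 3) ≤ i * K :=
      mul_le_mul h3 h2 (by positivity) (by positivity)
    have h6 : (0 : ℤ) ≤ ((j + 1 : ℕ) : ℤ) * d := by positivity
    have h7 : ((j + 1 : ℕ) : ℤ) ≤ t - ((j + 1 : ℕ) : ℤ) * ((η s : ℤ) + ρ s + 3 - d) -
        ((i : ℤ) - ((j + 1 : ℕ) : ℤ)) := by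
      have e : ((j + 1 : ℕ) : ℤ) * ((η s : ℤ) + ρ s + 3 - d) =
        ((j + 1 : ℕ) : ℤ) * ((η s : ℤ) + ρ s + 3) - ((j + 1 : ℕ) : ℤ) * d := by ring
      rw [e]
      linarith
    obtain ⟨r, hr⟩ := Int.eq_ofNat_of_zero_le (h4.trans h7)
    refine ⟨r, ?_, ?_⟩
    · rw [← hr]
      ring
    · rw [hr] at h7
      exact_mod_cast h7
  choose! r hr1 hr2 using hr
  -- the spaces of coefficients
  have hF : ∀ s ∈ T, ∀ j : ℕ, j < i → ∃ F : Submodule k (A3 k),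
      F ≤ homogeneousSubmodule (Fin 3) k (r s j) ∧ Module.Finite k F ∧
      Module.finrank k F = (j + 1 + 1).choose 2 ∧ ∀ f ∈ F, f ∈ Is s ^ (j + 1) → f = 0 :=
    fun s hs j hj => hIDM k s (hT s hs).1 (j + 1) (r s j) (hr2 s hs j hj)
  choose! F hF1 hF2 hF3 hF4 using hF
  -- the maps
  obtain ⟨g, hg⟩ : ∃ g : (Fin 3 → k) → ℕ → (A3 k →ₗ[k] F2 k), ∀ s j φ, g s j φ =
      algebraMap (A2 k) (F2 k) (el G d (l s) (h s) (R s) i (j + 1) φ) * (gF G ^ i)⁻¹ := by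
    refine ⟨fun s j => (LinearMap.mulRight k (algebraMap (A2 k) (F2 k)
      ((aeval xa (h s) * sgA (R s)) ^ (j + 1) * nv G d (ya (l s)) ^ (i - (j + 1))) *
        (gF G ^ i)⁻¹)) ∘ₗ (IsScalarTower.toAlgHom k (A2 k) (F2 k)).toLinearMap ∘ₗ
        (aeval xa : A3 k →ₐ[k] A2 k).toLinearMap, fun s j φ => ?_⟩
    rw [LinearMap.comp_apply, LinearMap.comp_apply, LinearMap.mulRight_apply]
    unfold Pool.Agent.H92.ND.el
    rw [mul_assoc (aeval xa φ), map_mul (algebraMap (A2 k) (F2 k)) (aeval xa φ)]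
    change algebraMap (A2 k) (F2 k) (aeval xa φ) * _ = _
    ring
  have hBFin := (hBDN k G d hd1 hG hsq (t - i) i).1
  have hBrk := (hBDN k G d hd1 hG hsq (t - i) i).2
  have hBS : ∀ w ∈ BS G d (t - i) i, ∃ b : A2 k, BH e0 i b ∧ w = bm G d b := by
    intro w hw
    unfold BS at hw
    induction hw using Submodule.span_induction with
    | mem x hx =>
      obtain ⟨e', b, h1, h2, h3⟩ := hx
      have h4 : e' = e0 := by
        rw [he0] at h1
        exact_mod_cast h1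
      rw [h4] at h2
      exact ⟨b, h2, h3⟩
    | zero => exact ⟨0, BH_zero _ _, (map_zero _).symm⟩
    | add x y _ _ hx hy =>
      obtain ⟨b, h1, h2⟩ := hx
      obtain ⟨c, h3, h4⟩ := hy
      exact ⟨b + c, BH_add h1 h3, by rw [map_add, h2, h4]⟩
    | smul a x _ hx =>
      obtain ⟨b, h1, h2⟩ := hx
      exact ⟨a • b, BH_smul h1 a, by rw [map_smul, h2]⟩
  have hd0 : (d : F2 k) ≠ 0 := by
    rw [Nat.cast_ne_zero]
    omega
  have hgi : gF G ^ i ≠ 0 := pow_ne_zero _ hgF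
  -- the sections
  have hW : ∀ s ∈ T, ∀ j : ℕ, j < i → ∀ f ∈ F s j, g s j f ∈ SJ G d i t := by
    intro s hs j hj f hf
    rw [hSME k G d hd1 hG hG0 i t]
    have h1 := hSEE k G d hG (ρ s) (η s) (r s j) i (j + 1) (l s) (R s) (D s) (h s) f
      (hHD s hs).hR (hHD s hs).eq (hh1 s hs) (hF1 s hs j hj hf) hj
    rw [hr1 s hs j hj] at h1
    refine ⟨i, _, h1, ?_⟩
    rw [hg, mul_comm, mul_assoc, inv_mul_cancel₀ hgi, mul_one]
  have hBSJ : BS G d (t - i) i ≤ SJ G d i t := by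
    intro w hw
    obtain ⟨b, hb, rfl⟩ := hBS w hw
    have h1 := hSNV k G d hG e0 i b hb
    have h2 : (e0 : ℤ) + i = t := by
      rw [← he0]
      ring
    rw [h2] at h1
    have h3 : ((d : k) ^ i) • bm G d b ∈ SJ G d i t := by
      rw [hSME k G d hd1 hG hG0 i t]
      refine ⟨i, _, h1, ?_⟩
      rw [hNVM k G d hd1 hG hG0 e0 i b hb, Algebra.smul_def, map_pow, map_natCast]
      ring
    have h4 : ((d : k) ^ i) ≠ 0 := by
      apply pow_ne_zero
      rw [Nat.cast_ne_zero]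
      omega
    have h5 := (SJ G d i t).smul_mem ((d : k) ^ i)⁻¹ h3
    rwa [smul_smul, inv_mul_cancel₀ h4, one_smul] at h5
  -- independence
  have hind : ∀ (w : F2 k) (f : (↥T × Fin i) → A3 k), w ∈ BS G d (t - i) i →
      (∀ a, f a ∈ F a.1.1 a.2.val) → w + ∑ a, g a.1.1 a.2.val (f a) = 0 → ∀ a, f a = 0 := by
    intro w f hw hf hsum a
    obtain ⟨b, hb, rfl⟩ := hBS w hw
    obtain ⟨φ, hφ⟩ : ∃ φ : (Fin 3 → k) → ℕ → A3 k, ∀ a : ↥T × Fin i,
        φ a.1.1 (a.2.val + 1) = C ((d : k) ^ i) * f a := by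
      refine ⟨fun s j => if hs : s ∈ T then (if hj : j - 1 < i then
        C ((d : k) ^ i) * f (⟨s, hs⟩, ⟨j - 1, hj⟩) else 0) else 0, fun a => ?_⟩
      have h1 : a.2.val + 1 - 1 < i := by
        rw [Nat.add_sub_cancel]
        exact a.2.isLt
      dsimp only
      rw [dif_pos a.1.2, dif_pos h1]
      rfl
    have hrel : nv G d b + ∑ s ∈ T, ∑ j ∈ Finset.range i,
        el G d (l s) (h s) (R s) i (j + 1) (φ s (j + 1)) = 0 := by
      apply IsFractionRing.injective (A2 k) (F2 k)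
      rw [map_zero, map_add, hNVM k G d hd1 hG hG0 e0 i b hb,
        ← sum_sub T i (fun s j => el G d (l s) (h s) (R s) i (j + 1) (φ s (j + 1))), map_sum]
      have h1 : ∀ a : ↥T × Fin i, algebraMap (A2 k) (F2 k) (el G d (l a.1.1) (h a.1.1) (R a.1.1)
          i (a.2.val + 1) (φ a.1.1 (a.2.val + 1))) =
          ((d : F2 k) * gF G) ^ i * g a.1.1 a.2.val (f a) := by
        intro a
        have h2 : el G d (l a.1.1) (h a.1.1) (R a.1.1) i (a.2.val + 1)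
            (φ a.1.1 (a.2.val + 1)) = algebraMap k (A2 k) ((d : k) ^ i) *
            el G d (l a.1.1) (h a.1.1) (R a.1.1) i (a.2.val + 1) (f a) := by
          unfold Pool.Agent.H92.ND.el
          rw [hφ, map_mul, aeval_C]
          ring
        rw [h2, map_mul, hg, mul_pow, ← IsScalarTower.algebraMap_apply k (A2 k) (F2 k), map_pow,
          map_natCast]
        field_simp
      rw [Finset.sum_congr rfl fun a _ => h1 a, ← Finset.mul_sum, ← mul_add, hsum, mul_zero]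
    have h1 := hIDP k G d hd1 hG hsq T hT l ρ η R D h
      (fun s hs => ⟨hl s hs, hHD s hs, hh1 s hs, hh2 s hs, hh3 s hs⟩) e0 i b hb φ hrel
      a.1.1 a.1.2 (a.2.val + 1) (by omega) a.2.isLt
    rw [hφ] at h1
    have h4 : ((d : k) ^ i) ≠ 0 := by
      apply pow_ne_zero
      rw [Nat.cast_ne_zero]
      omega
    have h2 := Ideal.mul_mem_left _ (C ((d : k) ^ i)⁻¹) h1
    rw [← mul_assoc, ← C_mul, inv_mul_cancel₀ h4, C_1, one_mul] at h2
    exact hF4 a.1.1 a.1.2 a.2.val a.2.isLt _ (hf a) h2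
  obtain ⟨V, hV1, hV2, hV3⟩ := hLIA k (F2 k) (↥T × Fin i) (fun _ => SJ G d i t)
    (BS G d (t - i) i) (A3 k) (fun a => F a.1.1 a.2.val) (fun a => g a.1.1 a.2.val) hBFin
    (fun a => hF2 a.1.1 a.1.2 a.2.val a.2.isLt)
    (fun a f hf => hW a.1.1 a.1.2 a.2.val a.2.isLt f hf) hind
  refine ⟨V, hV2.trans (sup_le hBSJ (iSup_le fun _ => le_rfl)), hV1, ?_⟩
  rw [hBrk] at hV3
  refine le_trans (le_of_eq ?_) hV3
  congr 1
  have h1 : ∀ a : ↥T × Fin i, Module.finrank k (F a.1.1 a.2.val) = (a.2.val + 2).choose 2 :=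
    fun a => hF3 a.1.1 a.1.2 a.2.val a.2.isLt
  rw [Finset.sum_congr rfl fun a _ => h1 a, sum_sub T i (fun _ j => (j + 2).choose 2),
    Finset.sum_const, smul_eq_mul, sum_choose2]

end Pool.Agent.H51.ND
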